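import Pool.Agent.Results.MP_db9079_lc.LocallyFiniteValues
import Pool.Agent.R794.FP.OrdTop

/-!
# MP_db9079_lc: closed linear orders and well-orders in F_p((t))

Write `K` for the field `F_p((t))`, with the valuation or with any other unary predicate `P`.
Suppose that the theory is recursively enumerable, or that true arithmetic is not reducible to it.
Then no infinite definable subset `D` of `K^n` has a definable linear order which is closed, if `D`
is locally closed, or for which the intersections of `D` with small balls have least elements.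

Proof. If `D` is locally closed and the order is closed then the intersections of `D` with small
balls are compact and have least elements.  The map which sends a ball to the least element of its
intersection with `D` is definable and locally constant as a map of the center and of the radius
of the ball.  So it has only finitely many values, by `LocallyFiniteValues`, but every element
of `D` is the limit of such values.
-/

set_option autoImplicit false

namespace Pool.Agent.Results.MP_db9079_lc.ClosedOrders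

open Pool.Agent.Y924.EL
open Pool.Agent.Results.MP_db9079_lc.UniformFiniteness
open Pool.Agent.Results.MP_db9079_lc.LocallyFiniteValues
open Function

variable (p : ℕ) [Fact p.Prime]

/-- `S` is a total preorder on `D` in which the classes `{y | S x y and S y x}` are finite, for
example a linear order -/
def TotPre {n : ℕ} (D : Set (Fin n → LaurentSeries (ZMod p)))
    (S : (Fin n → LaurentSeries (ZMod p)) → (Fin n → LaurentSeries (ZMod p)) → Prop) : Prop :=
  (∀ x ∈ D, ∀ y ∈ D, ∀ z ∈ D, S x y → S y z → S x z) ∧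
  (∀ x ∈ D, ∀ y ∈ D, S x y ∨ S y x) ∧
  (∀ x ∈ D, {y | y ∈ D ∧ S x y ∧ S y x}.Finite)

/-- `D` is locally closed, and the sets `{y | S y x}`, `x ∈ D`, are closed in `D` -/
def ClosedOrd {n : ℕ} (D : Set (Fin n → LaurentSeries (ZMod p)))
    (S : (Fin n → LaurentSeries (ZMod p)) → (Fin n → LaurentSeries (ZMod p)) → Prop) : Prop :=
  LocClosed p D ∧ ∀ x ∈ D, ∀ y ∈ D, ¬ S y x → ∃ b : LaurentSeries (ZMod p), b ≠ 0 ∧
    ∀ y' ∈ D, Near p b y y' → ¬ S y' x

/-- for every `x ∈ D` the intersections of `D` with the small balls `x + (t ^ r F_p[[t]])^n` have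
least elements -/
def BallMin {n : ℕ} (D : Set (Fin n → LaurentSeries (ZMod p)))
    (S : (Fin n → LaurentSeries (ZMod p)) → (Fin n → LaurentSeries (ZMod p)) → Prop) : Prop :=
  ∀ x ∈ D, ∃ r0 : ℤ, ∀ r, r0 ≤ r → ∃ y ∈ D, Near p (HahnSeries.single r (1 : ZMod p)) x y ∧
    ∀ z ∈ D, Near p (HahnSeries.single r (1 : ZMod p)) x z → S y z

variable {p}

theorem least_of {n : ℕ} (D : Set (Fin n → LaurentSeries (ZMod p)))
    (S : (Fin n → LaurentSeries (ZMod p)) → (Fin n → LaurentSeries (ZMod p)) → Prop)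
    (h : TotPre p D S) (h' : ClosedOrd p D S ∨ BallMin p D S) :
    ∀ x ∈ D, ∃ r0 : ℤ, ∀ r, r0 ≤ r →
      (Pool.Agent.R794.FP.Lst D S (HahnSeries.single r (1 : ZMod p)) x).Nonempty := by
  rcases h' with ⟨h1, h2⟩ | h1
  · refine Pool.Agent.R794.FP.closed_least D S h.1 h.2.1 ?_ ?_
    · intro x hx
      obtain ⟨b, hb, h3⟩ := h1 x hx
      obtain ⟨r0, hr0⟩ := Pool.Agent.R794.FP.near_of_NB (n := n) hb
      refine ⟨r0, fun x' hx' hn => ?_⟩
      obtain ⟨b', hb', h4⟩ := h3 x' ((near_iff _ _ _).2 (hr0 _ _ hx')) hn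
      obtain ⟨r, hr⟩ := Pool.Agent.R794.FP.near_of_NB (n := n) hb'
      exact ⟨r, fun x'' hx'' => h4 x'' ((near_iff _ _ _).2 (hr _ _ hx''))⟩
    · intro x hx y hy hn
      obtain ⟨b, hb, h3⟩ := h2 x hx y hy hn
      obtain ⟨r, hr⟩ := Pool.Agent.R794.FP.near_of_NB (n := n) hb
      exact ⟨r, fun y' hy' h4 => h3 y' hy' ((near_iff _ _ _).2 (hr _ _ h4))⟩
  · intro x hx
    obtain ⟨r0, hr0⟩ := h1 x hx
    refine ⟨r0, fun r hr => ?_⟩
    obtain ⟨y, hy, h2, h3⟩ := hr0 r hr
    exact ⟨y, hy, (near_iff _ _ _).1 h2, fun z hz hz' => h3 z hz ((near_iff _ _ _).2 hz')⟩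

/-- the formula of the domain of a relation -/
def domF (n : ℕ) (χ : Fm) : Fm := Pool.Agent.R794.FP.exs ((List.range n).map fun i => n + i) χ

theorem sat_domF (P : Set (LaurentSeries (ZMod p))) (n : ℕ) (χ : Fm)
    (x : Fin n → LaurentSeries (ZMod p)) (v : ℕ → LaurentSeries (ZMod p)) :
    Sat P (domF n χ) (Pool.Agent.R794.FP.asD x v) ↔
      ∃ y : Fin n → LaurentSeries (ZMod p), Sat P χ (Pool.Agent.R794.FP.asg x y v) := by
  unfold domF
  rw [Pool.Agent.R794.FP.sat_exs]
  have h1 : ∀ f : ℕ → LaurentSeries (ZMod p),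
      Pool.Agent.R794.FP.ovr (Pool.Agent.R794.FP.asD x v) f ((List.range n).map fun i => n + i) =
        Pool.Agent.R794.FP.asg x (fun i : Fin n => f (n + i)) v := by
    intro f
    funext i
    have h2 : i ∈ ((List.range n).map fun i => n + i) ↔ n ≤ i ∧ i < 2 * n := by
      simp only [List.mem_map, List.mem_range]
      constructor
      · rintro ⟨a, ha, rfl⟩
        omega
      · rintro ⟨h3, h4⟩
        exact ⟨i - n, by omega, by omega⟩
    unfold Pool.Agent.R794.FP.ovr Pool.Agent.R794.FP.asD Pool.Agent.R794.FP.asg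
    by_cases hi : i < n
    · have h3 : ¬ (n ≤ i ∧ i < 2 * n) := by omega
      simp only [h2, h3, if_false, hi, dif_pos]
    · by_cases hi' : i - n < n
      · have h3 : n ≤ i ∧ i < 2 * n := by omega
        have h4 : n + (i - n) = i := by omega
        rw [if_pos (h2.2 h3), dif_neg hi, dif_pos hi']
        simp only [h4]
      · have h3 : ¬ (n ≤ i ∧ i < 2 * n) := by omega
        rw [if_neg (fun h => h3 (h2.1 h)), dif_neg hi, dif_neg hi, dif_neg hi']
  simp only [h1]
  constructor
  · rintro ⟨f, hf⟩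
    exact ⟨_, hf⟩
  · rintro ⟨y, hy⟩
    refine ⟨fun i => if h : i - n < n then y ⟨i - n, h⟩ else v 0, ?_⟩
    convert hy using 2
    funext i
    have h2 : n + (i : ℕ) - n = i := by omega
    simp [h2]

theorem finite_of_tame (P : Set (LaurentSeries (ZMod p))) (hT : Tame p P) (δ χ : Fm) (n : ℕ) :
    ∃ N : ℕ, ∀ v u : ℕ → LaurentSeries (ZMod p),
      TotPre p (DSet p P δ n v) (DRel p P χ n n u) →
      ClosedOrd p (DSet p P δ n v) (DRel p P χ n n u) ∨
        BallMin p (DSet p P δ n v) (DRel p P χ n n u) →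
      (DSet p P δ n v).Finite ∧ (DSet p P δ n v).ncard ≤ N := by
  obtain ⟨N, hN⟩ := Pool.Agent.R794.FP.ord_finite
    (Pool.Agent.Y748.UF.t_VAL Pool.Agent.Y675.UF.t_ROOT) P hT.1 δ χ n
  refine ⟨N, fun v u h h' => hN v u _ (DRel p P χ n n u) (fun x => Iff.rfl)
    (fun x y => Iff.rfl) h.2.2 (least_of _ _ h h')⟩

theorem not_tame {n : ℕ} (D : Set (Fin n → LaurentSeries (ZMod p)))
    (S : (Fin n → LaurentSeries (ZMod p)) → (Fin n → LaurentSeries (ZMod p)) → Prop)
    (hD : D.Infinite) (h : TotPre p D S) (h' : ClosedOrd p D S ∨ BallMin p D S) :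
    ¬ Tame p (Codes p fun x y => x ∈ D ∧ y ∈ D ∧ S x y) := by
  intro hT
  set R : (Fin n → LaurentSeries (ZMod p)) → (Fin n → LaurentSeries (ZMod p)) → Prop :=
    fun x y => x ∈ D ∧ y ∈ D ∧ S x y with hR
  obtain ⟨N, hN⟩ := Pool.Agent.R794.FP.ord_finite
    (Pool.Agent.Y748.UF.t_VAL Pool.Agent.Y675.UF.t_ROOT) _ hT.1
    (domF n (Pool.Agent.R794.FP.relF p (n + n))) (Pool.Agent.R794.FP.relF p (n + n)) n
  have h1 : ∀ x y, R x y ↔ Sat (Codes p R) (Pool.Agent.R794.FP.relF p (n + n))
      (Pool.Agent.R794.FP.asg x y (fun _ => HahnSeries.single (1 : ℤ) (1 : ZMod p))) := by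
    intro x y
    have h2 := Pool.Agent.R794.FP.rel_cdSet R
      (fun _ => HahnSeries.single (1 : ℤ) (1 : ZMod p)) rfl
    rw [codes_eq]
    exact (iff_of_eq (congrFun (congrFun h2 x) y)).symm
  refine hD (hN (fun _ => HahnSeries.single (1 : ℤ) (1 : ZMod p))
    (fun _ => HahnSeries.single (1 : ℤ) (1 : ZMod p)) D R (fun x => ?_) h1 ?_ ?_).1
  · rw [sat_domF]
    constructor
    · intro hx
      exact ⟨x, (h1 x x).1 ⟨hx, hx, (h.2.1 x hx x hx).elim id id⟩⟩
    · rintro ⟨y, hy⟩
      exact ((h1 x y).2 hy).1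
  · intro x hx
    refine (h.2.2 x hx).subset ?_
    rintro y ⟨hy, h3, h4⟩
    exact ⟨hy, h3.2.2, h4.2.2⟩
  · intro x hx
    obtain ⟨r0, hr0⟩ := least_of D S h h' x hx
    refine ⟨r0, fun r hr => ?_⟩
    obtain ⟨y, hy, h3, h4⟩ := hr0 r hr
    exact ⟨y, hy, h3, fun z hz hz' => ⟨hy, hz, h4 z hz hz'⟩⟩

theorem result (p : ℕ) [Fact p.Prime] :
    -- the field with any unary predicate `P` (for `P = ValRing p`, the valued field): if the theory
    -- is recursively enumerable, or if true arithmetic is not reducible to it, then all definable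
    -- sets with such orders are finite, uniformly
    (∀ P : Set (LaurentSeries (ZMod p)), REPred (InTh p P) ∨ ¬ Arith p P →
      ∀ (δ χ : Fm) (n : ℕ), ∃ N : ℕ, ∀ v u : ℕ → LaurentSeries (ZMod p),
        TotPre p (DSet p P δ n v) (DRel p P χ n n u) →
        ClosedOrd p (DSet p P δ n v) (DRel p P χ n n u) ∨
          BallMin p (DSet p P δ n v) (DRel p P χ n n u) →
        (DSet p P δ n v).Finite ∧ (DSet p P δ n v).ncard ≤ N) ∧
    -- the expansion by such an order on any infinite set is undecidable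
    ∀ (n : ℕ) (D : Set (Fin n → LaurentSeries (ZMod p)))
      (S : (Fin n → LaurentSeries (ZMod p)) → (Fin n → LaurentSeries (ZMod p)) → Prop),
      D.Infinite → TotPre p D S → ClosedOrd p D S ∨ BallMin p D S →
        Arith p (Codes p fun x y => x ∈ D ∧ y ∈ D ∧ S x y) ∧
        ¬ REPred (InTh p (Codes p fun x y => x ∈ D ∧ y ∈ D ∧ S x y)) := by
  refine ⟨fun P hP => ?_, fun n D S hD h h' => ?_⟩
  · have hT : Tame p P := by
      rcases hP with h | h
      · exact tame p P h
      · exact (dichotomy p P).resolve_right h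
    exact fun δ χ n => finite_of_tame P hT δ χ n
  · have h1 := not_tame D S hD h h'
    exact ⟨(dichotomy p _).resolve_left h1, fun h2 => h1 (tame p _ h2)⟩

end Pool.Agent.Results.MP_db9079_lc.ClosedOrders
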