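import Pool.Agent.Results.MP_db9079_lc.UniformFiniteness
import Pool.Agent.R794.FP.Baire
import Pool.Agent.R794.FP.Code
import Pool.Agent.R794.FP.FinF

/-!
# MP_db9079_lc: locally finite values of definable relations over F_p((t))

Write `K` for the field `F_p((t))`, with the valuation or with any other unary predicate `P`.
A locally finite value of a relation `R` between `K^n` and `K^m` is a `y` with `R x y` for some `x`
which has a neighbourhood `U` such that `{y' | R x' y' for some x' in U}` is finite.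

The start result `UniformFiniteness` says: either true arithmetic is reducible to the theory of
`(K, P)`, or `(K, P)` has uniform finiteness.  Suppose that `(K, P)` has uniform finiteness.  Let `F`
be a finite set of locally finite values of the `j`-th coordinate.  The points `x` which belong to
these values are in some `(c O)^n`, and the neighbourhoods contain `x + (b O)^n`, with one `b ≠ 0`.
There is a `k`, which only depends on the formula for `R`, such that if there are only finitely many
values near `x` then there are at most `k` of them.  The `j`-th coordinates of the values at the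
points `x` in `(c O)^n` which have at most `k` values in `x + (b O)^n` form a set which is definable
with the parameters `b`, `c` by one formula, and this set is finite, because `(c O)^n / (b O)^n` is
finite; so it has at most `N` elements, and it contains `F`.
-/

set_option autoImplicit false

namespace Pool.Agent.Results.MP_db9079_lc.LocallyFiniteValues

open Pool.Agent.Y924.EL
open Pool.Agent.Results.MP_db9079_lc.UniformFiniteness
open Function

variable (p : ℕ) [Fact p.Prime]

/-- the relation between `x` in `K^n` and `y` in `K^m` which is defined, in the field `F_p((t))`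
with the unary predicate `P`, by the formula `φ` in the variables `x_0, ..., x_(n+m-1)`, with
the parameters `v (n+m), v (n+m+1), ...` -/
def DRel (P : Set (LaurentSeries (ZMod p))) (φ : Fm) (n m : ℕ)
    (v : ℕ → LaurentSeries (ZMod p)) (x : Fin n → LaurentSeries (ZMod p))
    (y : Fin m → LaurentSeries (ZMod p)) : Prop :=
  Sat P φ (fun i => if h : i < n then x ⟨i, h⟩ else if h' : i - n < m then y ⟨i - n, h'⟩ else v i)

/-- the subset of `K^n` which is defined by the formula `φ` in the variables `x_0, ..., x_(n-1)`,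
with the parameters `v n, v (n+1), ...` -/
def DSet (P : Set (LaurentSeries (ZMod p))) (φ : Fm) (n : ℕ)
    (v : ℕ → LaurentSeries (ZMod p)) : Set (Fin n → LaurentSeries (ZMod p)) :=
  {x | Sat P φ (fun i => if h : i < n then x ⟨i, h⟩ else v i)}

/-- `x'` is in the neighbourhood `x + (b F_p[[t]])^n` of `x` -/
def Near {n : ℕ} (b : LaurentSeries (ZMod p)) (x x' : Fin n → LaurentSeries (ZMod p)) : Prop :=
  ∀ i, ∃ z ∈ ValRing p, x i + b * z = x' i

/-- the locally finite values of the relation `R`: the `y` for which there is an `x` with `R x y`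
and with a neighbourhood in which `R` has only finitely many values -/
def LFV {n m : ℕ}
    (R : (Fin n → LaurentSeries (ZMod p)) → (Fin m → LaurentSeries (ZMod p)) → Prop) :
    Set (Fin m → LaurentSeries (ZMod p)) :=
  {y | ∃ x, R x y ∧ ∃ b : LaurentSeries (ZMod p), b ≠ 0 ∧
    {y' | ∃ x', R x' y' ∧ Near p b x x'}.Finite}

/-- uniform finiteness of the sets of the locally finite values of the definable relations -/
def LFTame (P : Set (LaurentSeries (ZMod p))) : Prop :=
  ∀ (φ : Fm) (n m : ℕ), ∃ N : ℕ, ∀ v : ℕ → LaurentSeries (ZMod p),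
    (LFV p (DRel p P φ n m v)).Finite ∧ (LFV p (DRel p P φ n m v)).ncard ≤ N

/-- the image of a relation -/
def Img {n m : ℕ}
    (R : (Fin n → LaurentSeries (ZMod p)) → (Fin m → LaurentSeries (ZMod p)) → Prop) :
    Set (Fin m → LaurentSeries (ZMod p)) :=
  {y | ∃ x, R x y}

/-- the domain of a relation -/
def Dom {n m : ℕ}
    (R : (Fin n → LaurentSeries (ZMod p)) → (Fin m → LaurentSeries (ZMod p)) → Prop) :
    Set (Fin n → LaurentSeries (ZMod p)) :=
  {x | ∃ y, R x y}

/-- all `{y | R x y}` are finite, and they are locally constant on the domain of `R` -/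
def LocConst {n m : ℕ}
    (R : (Fin n → LaurentSeries (ZMod p)) → (Fin m → LaurentSeries (ZMod p)) → Prop) : Prop :=
  ∀ x ∈ Dom p R, {y | R x y}.Finite ∧ ∃ b : LaurentSeries (ZMod p), b ≠ 0 ∧
    ∀ x' ∈ Dom p R, Near p b x x' → ∀ y, R x' y ↔ R x y

/-- every point of `S` has a neighbourhood in which `S` is relatively closed -/
def LocClosed {n : ℕ} (S : Set (Fin n → LaurentSeries (ZMod p))) : Prop :=
  ∀ x ∈ S, ∃ b : LaurentSeries (ZMod p), b ≠ 0 ∧ ∀ x', Near p b x x' → x' ∉ S →
    ∃ b' : LaurentSeries (ZMod p), b' ≠ 0 ∧ ∀ x'', Near p b' x' x'' → x'' ∉ S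

/-- `R` is a function on its domain, its domain is locally closed, its fibres
are closed in the domain, and its image is countable -/
def ClosedFib {n m : ℕ}
    (R : (Fin n → LaurentSeries (ZMod p)) → (Fin m → LaurentSeries (ZMod p)) → Prop) : Prop :=
  (∀ x y y', R x y → R x y' → y = y') ∧ LocClosed p (Dom p R) ∧
    (∀ x ∈ Dom p R, ∀ y, ¬ R x y → ∃ b : LaurentSeries (ZMod p), b ≠ 0 ∧
      ∀ x', Near p b x x' → ¬ R x' y) ∧ (Img p R).Countable

/-- the isolated points of `S` -/
def Iso {n : ℕ} (S : Set (Fin n → LaurentSeries (ZMod p))) :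
    Set (Fin n → LaurentSeries (ZMod p)) :=
  {x | x ∈ S ∧ ∃ b : LaurentSeries (ZMod p), b ≠ 0 ∧ ∀ x' ∈ S, Near p b x x' → x' = x}

/-- the code of a list of elements of `F_p((t))`: `0` is the code of `[]`, and `a ^ p + t c ^ p` is
the code of `a :: l`, where `c` is the code of `l` -/
noncomputable def lcode : List (LaurentSeries (ZMod p)) → LaurentSeries (ZMod p)
  | [] => 0
  | a :: l => a ^ p + HahnSeries.single (1 : ℤ) (1 : ZMod p) * (lcode l) ^ p

/-- the set of the codes of the pairs `(x, y)` with `R x y` -/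
def Codes {n m : ℕ}
    (R : (Fin n → LaurentSeries (ZMod p)) → (Fin m → LaurentSeries (ZMod p)) → Prop) :
    Set (LaurentSeries (ZMod p)) :=
  {z | ∃ x y, R x y ∧ z = lcode p (List.ofFn x ++ List.ofFn y)}

variable {p}

theorem near_iff {n : ℕ} (b : LaurentSeries (ZMod p)) (x x' : Fin n → LaurentSeries (ZMod p)) :
    Near p b x x' ↔ Pool.Agent.R794.FP.Near b x x' := by
  unfold Near Pool.Agent.R794.FP.Near
  refine forall_congr' fun i => ?_
  constructor
  · rintro ⟨z, hz, h⟩
    exact ⟨z, hz, by rw [← h, add_comm]⟩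
  · rintro ⟨z, hz, h⟩
    exact ⟨z, hz, by rw [← h, add_comm]⟩

theorem lfv_eq {n m : ℕ}
    (R : (Fin n → LaurentSeries (ZMod p)) → (Fin m → LaurentSeries (ZMod p)) → Prop) :
    LFV p R = Pool.Agent.R794.FP.LFn R := by
  ext y
  simp only [LFV, Pool.Agent.R794.FP.LFn, Set.mem_ofPred_eq, near_iff]
  rfl

theorem lftame_of_tame (P : Set (LaurentSeries (ZMod p))) (h : Tame p P) : LFTame p P := by
  intro φ n m
  obtain ⟨N, hN⟩ := Pool.Agent.R794.FP.lfn_finite
    (Pool.Agent.Y748.UF.t_VAL Pool.Agent.Y675.UF.t_ROOT) P h.1 φ n m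
  refine ⟨N, fun v => ?_⟩
  rw [lfv_eq]
  exact hN v

theorem near_refl {n : ℕ} (b : LaurentSeries (ZMod p)) (x : Fin n → LaurentSeries (ZMod p)) :
    Near p b x x := fun _ => ⟨0, ⟨0, map_zero _⟩, by simp⟩

theorem img_subset {n m : ℕ}
    (R : (Fin n → LaurentSeries (ZMod p)) → (Fin m → LaurentSeries (ZMod p)) → Prop)
    (h : LocConst p R) : Img p R ⊆ LFV p R := by
  rintro y ⟨x, hx⟩
  obtain ⟨h1, b, hb, h2⟩ := h x ⟨y, hx⟩
  refine ⟨x, hx, b, hb, h1.subset ?_⟩
  rintro y' ⟨x', h3, h4⟩
  exact (h2 x' ⟨y', h3⟩ h4 y').1 h3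

theorem img_subset' {n m : ℕ}
    (R : (Fin n → LaurentSeries (ZMod p)) → (Fin m → LaurentSeries (ZMod p)) → Prop)
    (h : ClosedFib p R) (hfin : (LFV p R).Finite) : Img p R ⊆ LFV p R := by
  obtain ⟨h1, h2, h3, h4⟩ := h
  rw [lfv_eq] at hfin ⊢
  refine (Pool.Agent.R794.FP.range_subset R h1 h4 ?_ ?_
    (hfin.subset (Pool.Agent.R794.FP.lcvn_sub R))).trans (Pool.Agent.R794.FP.lcvn_sub R)
  · intro x hx
    obtain ⟨b, hb, h5⟩ := h2 x hx
    refine ⟨b, hb, fun x' hx' hn => ?_⟩
    obtain ⟨b', hb', h6⟩ := h5 x' ((near_iff _ _ _).2 hx') hn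
    exact ⟨b', hb', fun x'' hx'' => h6 x'' ((near_iff _ _ _).2 hx'')⟩
  · intro x y hx hn
    obtain ⟨b, hb, h5⟩ := h3 x hx y hn
    exact ⟨b, hb, fun x' hx' => h5 x' ((near_iff _ _ _).2 hx')⟩

/-- the formula of the identity relation on the set defined by `φ` -/
def idF (n : ℕ) (φ : Fm) : Fm :=
  .and (Pool.Agent.Y924.UF.ren (fun i => if i < n then i else i + n) φ)
    (Pool.Agent.R794.FP.ands ((List.range n).map fun i => .eq i (n + i)))

theorem drel_idF (P : Set (LaurentSeries (ZMod p))) (φ : Fm) (n : ℕ)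
    (v : ℕ → LaurentSeries (ZMod p)) (x y : Fin n → LaurentSeries (ZMod p)) :
    DRel p P (idF n φ) n n (fun i => v (i - n)) x y ↔ x ∈ DSet p P φ n v ∧ y = x := by
  unfold DRel idF
  have hinj : Injective (fun i => if i < n then i else i + n) := by
    intro i j h
    simp only at h
    split_ifs at h <;> omega
  simp only [Sat, Pool.Agent.Y410.UF.sat_ren P hinj, Pool.Agent.R794.FP.sat_ands, List.mem_map,
    List.mem_range]
  refine and_congr ?_ ?_
  · unfold DSet
    rw [Set.mem_ofPred_eq]
    have h1 : ((fun i => if h : i < n then x ⟨i, h⟩ else if h' : i - n < n then y ⟨i - n, h'⟩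
        else v (i - n)) ∘ fun i => if i < n then i else i + n) =
        fun i => if h : i < n then x ⟨i, h⟩ else v i := by
      funext i
      simp only [comp_apply]
      by_cases hi : i < n
      · simp [hi]
      · have h2 : ¬ (i + n < n) := by omega
        simp [hi]
    rw [h1]
  · constructor
    · intro h
      funext i
      have h1 := h _ ⟨i, i.2, rfl⟩
      simp only [Sat] at h1
      have h2 : ¬ (n + (i : ℕ) < n) := by omega
      simp at h1
      exact h1.symm
    · rintro rfl ψ ⟨i, hi, rfl⟩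
      simp only [Sat]
      have h2 : ¬ (n + i < n) := by omega
      have h3 : n + i - n < n := by omega
      simp [hi]

theorem lcode_eq (l : List (LaurentSeries (ZMod p))) :
    lcode p l = Pool.Agent.R794.FP.cdl p (HahnSeries.single (1 : ℤ) (1 : ZMod p)) l := by
  induction l with
  | nil => rfl
  | cons a l ih =>
    unfold lcode Pool.Agent.R794.FP.cdl
    rw [ih]

theorem codes_eq {n m : ℕ}
    (R : (Fin n → LaurentSeries (ZMod p)) → (Fin m → LaurentSeries (ZMod p)) → Prop) :
    Codes p R = Pool.Agent.R794.FP.cdSet R := by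
  ext z
  simp only [Codes, Pool.Agent.R794.FP.cdSet, Set.mem_ofPred_eq, lcode_eq]

theorem not_lftame {n m : ℕ}
    (R : (Fin n → LaurentSeries (ZMod p)) → (Fin m → LaurentSeries (ZMod p)) → Prop)
    (h : (LFV p R).Infinite) : ¬ LFTame p (Codes p R) := by
  intro hT
  obtain ⟨N, hN⟩ := hT (Pool.Agent.R794.FP.relF p (n + m)) n m
  have h1 := (hN fun _ => HahnSeries.single (1 : ℤ) (1 : ZMod p)).1
  have h2 : DRel p (Codes p R) (Pool.Agent.R794.FP.relF p (n + m)) n m
      (fun _ => HahnSeries.single (1 : ℤ) (1 : ZMod p)) = R := by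
    rw [codes_eq]
    exact Pool.Agent.R794.FP.rel_cdSet R _ rfl
  rw [h2] at h1
  exact h h1

theorem expansion {n m : ℕ}
    (R : (Fin n → LaurentSeries (ZMod p)) → (Fin m → LaurentSeries (ZMod p)) → Prop)
    (h : (LFV p R).Infinite) : Arith p (Codes p R) ∧ ¬ REPred (InTh p (Codes p R)) :=
  ⟨(dichotomy p _).resolve_left fun ht => not_lftame R h (lftame_of_tame _ ht),
    fun hr => not_lftame R h (lftame_of_tame _ (tame p _ hr))⟩

/-- the valuation is locally constant -/
theorem order_near (x : Fin 1 → LaurentSeries (ZMod p)) (hx : x 0 ≠ 0) :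
    ∃ b : LaurentSeries (ZMod p), b ≠ 0 ∧ ∀ x' : Fin 1 → LaurentSeries (ZMod p), Near p b x x' →
      x' 0 ≠ 0 ∧ (x' 0).order = (x 0).order := by
  refine ⟨HahnSeries.single ((x 0).order + 1) (1 : ZMod p), Pool.Agent.R794.FP.single_ne _,
    fun x' hx' => ?_⟩
  rw [near_iff, Pool.Agent.R794.FP.near_single] at hx'
  have h1 := hx' 0
  have h2 : (x' 0).coeff (x 0).order ≠ 0 := by
    rw [← h1 _ (lt_add_one _)]
    exact HahnSeries.coeff_order_eq_zero.not.2 hx
  have h3 : x' 0 ≠ 0 := by
    intro h
    rw [h] at h2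
    exact h2 (by simp)
  refine ⟨h3, le_antisymm (HahnSeries.order_le_of_coeff_ne_zero h2) ?_⟩
  by_contra hlt
  push Not at hlt
  have h4 : (x' 0).coeff (x' 0).order ≠ 0 := HahnSeries.coeff_order_eq_zero.not.2 h3
  rw [← h1 _ (hlt.trans (lt_add_one _))] at h4
  exact h4 (HahnSeries.coeff_eq_zero_of_lt_order hlt)

theorem order_single' (k : ℤ) :
    (HahnSeries.single k (1 : ZMod p) : LaurentSeries (ZMod p)).order = k :=
  HahnSeries.order_single one_ne_zero

/-- the point `t ^ k` -/
noncomputable def tk (p : ℕ) [Fact p.Prime] (k : ℤ) : Fin 1 → LaurentSeries (ZMod p) :=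
  fun _ => HahnSeries.single k (1 : ZMod p)

theorem tk_ne (k : ℤ) : tk p k 0 ≠ 0 := Pool.Agent.R794.FP.single_ne k

theorem tk_order (k : ℤ) : (tk p k 0).order = k := order_single' k

theorem result (p : ℕ) [Fact p.Prime] :
    -- the field with any unary predicate (for `P = ValRing p`, the valued field): true arithmetic
    -- is reducible to the theory, or the sets of the locally finite values are uniformly finite;
    -- they are if the theory is recursively enumerable
    (∀ P : Set (LaurentSeries (ZMod p)), (LFTame p P ∨ Arith p P) ∧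
      (REPred (InTh p P) → LFTame p P)) ∧
    -- consequences of `LFTame`
    (∀ P : Set (LaurentSeries (ZMod p)), LFTame p P →
      -- definable relations which are locally constant and have finite fibres have finite images
      (∀ (φ : Fm) (n m : ℕ), ∃ N : ℕ, ∀ v, LocConst p (DRel p P φ n m v) →
        (Img p (DRel p P φ n m v)).Finite ∧ (Img p (DRel p P φ n m v)).ncard ≤ N) ∧
      -- so do definable functions with closed fibres and countable image
      (∀ (φ : Fm) (n m : ℕ), ∃ N : ℕ, ∀ v, ClosedFib p (DRel p P φ n m v) →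
        (Img p (DRel p P φ n m v)).Finite ∧ (Img p (DRel p P φ n m v)).ncard ≤ N) ∧
      -- isolated points of definable sets, and countable locally closed definable sets
      (∀ (φ : Fm) (n : ℕ), ∃ N : ℕ, ∀ v, (Iso p (DSet p P φ n v)).Finite ∧
        (Iso p (DSet p P φ n v)).ncard ≤ N ∧
        ((DSet p P φ n v).Countable → LocClosed p (DSet p P φ n v) →
          (DSet p P φ n v).Finite ∧ (DSet p P φ n v).ncard ≤ N)) ∧
      -- there is no definable family of disjoint nonempty finite subsets of `K^m`, indexed by the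
      -- value group
      (∀ (φ : Fm) (m : ℕ) (v : ℕ → LaurentSeries (ZMod p)),
        ¬ ∀ x : Fin 1 → LaurentSeries (ZMod p), x 0 ≠ 0 →
          {y | DRel p P φ 1 m v x y}.Finite ∧ {y | DRel p P φ 1 m v x y}.Nonempty ∧
          ∀ y, DRel p P φ 1 m v x y → ∀ x' : Fin 1 → LaurentSeries (ZMod p), x' 0 ≠ 0 →
            (DRel p P φ 1 m v x' y ↔ (x' 0).order = (x 0).order))) ∧
    -- the expansions by relations with infinitely many locally finite values are undecidable
    (∀ (n m : ℕ)
      (R : (Fin n → LaurentSeries (ZMod p)) → (Fin m → LaurentSeries (ZMod p)) → Prop),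
      (LFV p R).Infinite → Arith p (Codes p R) ∧ ¬ REPred (InTh p (Codes p R))) ∧
    -- for example the expansion by `x ↦ g (v (x))`, for any function `g` from the value group to
    -- `K` with infinite image
    ∀ g : ℤ → LaurentSeries (ZMod p), (Set.range g).Infinite →
      Arith p (Codes p fun (x y : Fin 1 → LaurentSeries (ZMod p)) =>
        x 0 ≠ 0 ∧ y 0 = g (x 0).order) ∧
      ¬ REPred (InTh p (Codes p fun (x y : Fin 1 → LaurentSeries (ZMod p)) =>
        x 0 ≠ 0 ∧ y 0 = g (x 0).order)) := by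
  refine ⟨fun P => ⟨(dichotomy p P).imp_left (lftame_of_tame P), fun h =>
    lftame_of_tame P (tame p P h)⟩, fun P hP => ⟨fun φ n m => ?_, fun φ n m => ?_,
    fun φ n => ?_, fun φ m v hv => ?_⟩, fun n m R h => expansion R h, fun g hg => ?_⟩
  · obtain ⟨N, hN⟩ := hP φ n m
    refine ⟨N, fun v hv => ?_⟩
    have h1 := img_subset _ hv
    exact ⟨(hN v).1.subset h1, (Set.ncard_le_ncard h1 (hN v).1).trans (hN v).2⟩
  · obtain ⟨N, hN⟩ := hP φ n m
    refine ⟨N, fun v hv => ?_⟩
    have h1 := img_subset' _ hv (hN v).1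
    exact ⟨(hN v).1.subset h1, (Set.ncard_le_ncard h1 (hN v).1).trans (hN v).2⟩
  · obtain ⟨N, hN⟩ := hP (idF n φ) n n
    refine ⟨N, fun v => ?_⟩
    have h0 := hN (fun i => v (i - n))
    set R := DRel p P (idF n φ) n n (fun i => v (i - n)) with hR
    have hR' : ∀ x y, R x y ↔ x ∈ DSet p P φ n v ∧ y = x := drel_idF P φ n v
    have h1 : Iso p (DSet p P φ n v) ⊆ LFV p R := by
      rintro x ⟨hx, b, hb, h2⟩
      refine ⟨x, (hR' x x).2 ⟨hx, rfl⟩, b, hb, (Set.finite_singleton x).subset ?_⟩
      rintro y' ⟨x', h3, h4⟩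
      obtain ⟨h5, rfl⟩ := (hR' x' y').1 h3
      exact h2 y' h5 h4
    have hdom : Dom p R = DSet p P φ n v := by
      ext x
      constructor
      · rintro ⟨y, hy⟩
        exact ((hR' x y).1 hy).1
      · intro hx
        exact ⟨x, (hR' x x).2 ⟨hx, rfl⟩⟩
    have himg : Img p R = DSet p P φ n v := by
      ext y
      constructor
      · rintro ⟨x, hx⟩
        obtain ⟨h2, rfl⟩ := (hR' x y).1 hx
        exact h2
      · intro hx
        exact ⟨y, (hR' y y).2 ⟨hx, rfl⟩⟩
    refine ⟨h0.1.subset h1, (Set.ncard_le_ncard h1 h0.1).trans h0.2, fun hc hl => ?_⟩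
    have h2 : ClosedFib p R := by
      refine ⟨fun x y y' hy hy' => ?_, by rw [hdom]; exact hl, fun x hx y hn => ?_,
        by rw [himg]; exact hc⟩
      · rw [((hR' x y).1 hy).2, ((hR' x y').1 hy').2]
      · rw [hdom] at hx
        have hne : y ≠ x := fun h => hn ((hR' x y).2 ⟨hx, h⟩)
        obtain ⟨i, hi⟩ := Function.ne_iff.1 hne
        obtain ⟨k, hk⟩ : ∃ k, (x i).coeff k ≠ (y i).coeff k := by
          by_contra hcon
          push Not at hcon
          exact hi (HahnSeries.ext (funext fun k => (hcon k).symm))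
        refine ⟨HahnSeries.single (k + 1) (1 : ZMod p), Pool.Agent.R794.FP.single_ne _,
          fun x' hx' h3 => ?_⟩
        rw [near_iff, Pool.Agent.R794.FP.near_single] at hx'
        obtain ⟨_, rfl⟩ := (hR' x' y).1 h3
        exact hk (hx' i k (lt_add_one k))
    have h3 := img_subset' R h2 h0.1
    rw [himg] at h3
    exact ⟨h0.1.subset h3, (Set.ncard_le_ncard h3 h0.1).trans h0.2⟩
  · obtain ⟨N, hN⟩ := hP φ 1 m
    have h0 := (hN v).1
    choose y hy using fun k : ℤ => (hv (tk p k) (tk_ne k)).2.1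
    have h1 : ∀ k, y k ∈ LFV p (DRel p P φ 1 m v) := by
      intro k
      obtain ⟨b, hb, h2⟩ := order_near (tk p k) (tk_ne k)
      refine ⟨_, hy k, b, hb, (hv (tk p k) (tk_ne k)).1.subset ?_⟩
      rintro y' ⟨x', h3, h4⟩
      obtain ⟨h5, h6⟩ := h2 x' h4
      exact ((hv x' h5).2.2 y' h3 (tk p k) (tk_ne k)).2 h6.symm
    have h2 : Injective y := by
      intro k l hkl
      have h3 := hy l
      rw [← hkl] at h3
      have h4 := ((hv (tk p k) (tk_ne k)).2.2 _ (hy k) (tk p l) (tk_ne l)).1 h3
      rw [tk_order, tk_order] at h4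
      exact h4.symm
    exact Set.infinite_of_injective_forall_mem h2 h1 h0
  · refine expansion _ fun hfin => ?_
    have h1 : (fun _ : Fin 1 => ·) '' Set.range g ⊆ LFV p
        (fun (x y : Fin 1 → LaurentSeries (ZMod p)) => x 0 ≠ 0 ∧ y 0 = g (x 0).order) := by
      rintro _ ⟨_, ⟨k, rfl⟩, rfl⟩
      obtain ⟨b, hb, h2⟩ := order_near (tk p k) (tk_ne k)
      refine ⟨tk p k, ⟨tk_ne k, by rw [tk_order]⟩, b, hb,
        (Set.finite_singleton (fun _ : Fin 1 => g k)).subset ?_⟩
      rintro y' ⟨x', ⟨h3, h4⟩, h5⟩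
      rw [Set.mem_singleton_iff]
      funext i
      rw [Subsingleton.elim i 0, h4, (h2 x' h5).2, tk_order]
    have h2 := hfin.subset h1
    refine hg (Set.Finite.of_finite_image h2 ?_)
    intro a _ b _ hab
    exact congrFun hab 0

end Pool.Agent.Results.MP_db9079_lc.LocallyFiniteValues
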