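import Pool.Agent.R621.EL.Top

/-!
# The theory of F_p((t)) is not elementary recursive

In a field `K` of characteristic `p` the map `J (x, y) = x ^ p + t y ^ p` is injective if `t` is not
a `p`-th power. This additive pairing defines, by formulas of growing length, linear orders with
`2, 4, 16, 65536, ...` elements together with codes, in `K`, of all functions on them; on these
orders the field can speak about all computations which are bounded by a fixed tower of powers of
two of the input. By diagonalization no algorithm decides the theory of `K`, nor already the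
truth of the linear formulas (built from `x + y = z`, `x = 1` and `x ^ p + t y ^ p = z`), within
an elementary bound. The sentences do not depend on `K`.
-/

set_option autoImplicit false

namespace Pool.Agent.Results.MP_db9079_lc.NonElementary

open Pool.Agent.Y924.EL
open Pool.Agent.R621.EL

/-- the valuation ring `F_p[[t]]` in `F_p((t))` -/
def ValRing (p : ℕ) : Set (LaurentSeries (ZMod p)) :=
  Set.range (algebraMap (PowerSeries (ZMod p)) (LaurentSeries (ZMod p)))

/-- closed formulas of the language of rings in the variables `x_0, ..., x_63` -/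
def RingSentence (ψ : Fm) : Prop := ψ.fv = ∅ ∧ ψ.InRing 64

/-- the program `c` decides which sentences belong to `T` -/
def Decides (c : Nat.Partrec.Code) (T : Fm → Prop) : Prop :=
  ∀ ψ : Fm, RingSentence ψ → ∃ y ∈ c.eval ψ.code, (y ≠ 0 ↔ T ψ)

/-- for no elementary bound `b` are almost all values of the program `c` at the sentences computed
within the bound `b` -/
def NotElementary (c : Nat.Partrec.Code) : Prop :=
  ∀ b : ℕ → ℕ, E3 b → ∀ B : ℕ, ∃ ψ : Fm, RingSentence ψ ∧ B ≤ ψ.code ∧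
    Nat.Partrec.Code.evaln (b ψ.code) c ψ.code = none

theorem not_elementary (p : ℕ) (C : (K : Type) → [CommRing K] → Prop)
    (hC : ∀ (K : Type) [CommRing K], C K → Pairing p K) (hne : ∃ (K : Type) (_ : CommRing K), C K)
    (O : (K : Type) → [CommRing K] → Set K) (c : Nat.Partrec.Code)
    (hc : Decides c fun ψ => ∀ (K : Type) [CommRing K], C K → ∀ v : ℕ → K, Sat (O K) ψ v) :
    NotElementary c := by
  intro b hb B
  have hf : E3 fun n => evn c (Nat.pair (b n) n) - 1 :=
    Pool.Agent.Y154.EL.e_pred (E3.comp (Pool.Agent.Y154.EL.t_EVALN c)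
      (E3.pair hb Pool.Agent.Y154.EL.e_id))
  obtain ⟨ψ, h1, h2, h3, h4⟩ := insep p _ hf B
  refine ⟨ψ, ⟨h1, h2⟩, h3, ?_⟩
  rcases h5 : Nat.Partrec.Code.evaln (b ψ.code) c ψ.code with _ | z
  · rfl
  · exfalso
    have hev : evn c (Nat.pair (b ψ.code) ψ.code) - 1 = z := by
      rw [Pool.Agent.Y154.EL.evn_pr, h5]
      rfl
    rw [hev] at h4
    obtain ⟨y, hy, hy2⟩ := hc ψ ⟨h1, h2⟩
    have hz : z ∈ c.eval ψ.code := Nat.Partrec.Code.evaln_sound h5
    have hyz : y = z := Part.mem_unique hy hz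
    rw [hyz] at hy2
    rcases h4 with ⟨h6, h7⟩ | ⟨h6, h7⟩
    · exact hy2.2 (fun K _ hK v => h7 K (hC K hK) (O K) v) h6
    · obtain ⟨K, _, hK⟩ := hne
      exact h7 K (hC K hK) (O K) (fun _ => 0) (hy2.1 h6 K hK (fun _ => 0))

theorem not_elementary_one (p : ℕ) (K : Type) [CommRing K] (hK : Pairing p K) (O : Set K)
    (c : Nat.Partrec.Code) (hc : Decides c fun ψ => ∀ v : ℕ → K, Sat O ψ v) :
    NotElementary c := by
  intro b hb B
  have hf : E3 fun n => evn c (Nat.pair (b n) n) - 1 :=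
    Pool.Agent.Y154.EL.e_pred (E3.comp (Pool.Agent.Y154.EL.t_EVALN c)
      (E3.pair hb Pool.Agent.Y154.EL.e_id))
  obtain ⟨ψ, h1, h2, h3, h4⟩ := insep p _ hf B
  refine ⟨ψ, ⟨h1, h2⟩, h3, ?_⟩
  rcases h5 : Nat.Partrec.Code.evaln (b ψ.code) c ψ.code with _ | z
  · rfl
  · exfalso
    have hev : evn c (Nat.pair (b ψ.code) ψ.code) - 1 = z := by
      rw [Pool.Agent.Y154.EL.evn_pr, h5]
      rfl
    rw [hev] at h4
    obtain ⟨y, hy, hy2⟩ := hc ψ ⟨h1, h2⟩
    have hz : z ∈ c.eval ψ.code := Nat.Partrec.Code.evaln_sound h5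
    have hyz : y = z := Part.mem_unique hy hz
    rw [hyz] at hy2
    rcases h4 with ⟨h6, h7⟩ | ⟨h6, h7⟩
    · exact hy2.2 (fun v => h7 K hK O v) h6
    · exact h7 K hK O (fun _ => 0) (hy2.1 h6 (fun _ => 0))

theorem result (p : ℕ) [Fact p.Prime] :
    -- no elementary recursive function decides the theory of the valued field `F_p((t))`, even
    -- for ring sentences with 64 variables; an algorithm has no elementary bound
    ((∀ f : ℕ → ℕ, E3 f → ∀ B : ℕ, ∃ ψ : Fm, RingSentence ψ ∧ B ≤ ψ.code ∧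
        ¬ (f ψ.code ≠ 0 ↔ ∀ v, Sat (ValRing p) ψ v)) ∧
      ∀ c : Nat.Partrec.Code, (Decides c fun ψ => ∀ v, Sat (ValRing p) ψ v) →
        NotElementary c) ∧
    -- the same for the linear formulas with the parameter `t`
    (∀ f : ℕ → ℕ, E3 f → ∀ B : ℕ, ∃ ψ : Fm, Lin p ψ ∧ ψ.fv ⊆ {3} ∧ ψ.InRing 64 ∧ B ≤ ψ.code ∧
      ¬ (f ψ.code ≠ 0 ↔ ∀ v : ℕ → LaurentSeries (ZMod p), v 3 = HahnSeries.single 1 1 →
        Sat (ValRing p) ψ v)) ∧
    (∀ (K : Type) [CommRing K] (O : Set K) (v : ℕ → K),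
      Sat O (JF p) v ↔ v 0 ^ p + v 3 * v 1 ^ p = v 2) ∧
    -- elementary inseparability: the sentences true in all imperfect fields of characteristic
    -- `p`, and the sentences false in all of them
    (∀ f : ℕ → ℕ, E3 f → ∀ B : ℕ, ∃ ψ : Fm, RingSentence ψ ∧ B ≤ ψ.code ∧
      ((f ψ.code = 0 ∧ ∀ (K : Type) [CommRing K], Pairing p K → ∀ (O : Set K) (v : ℕ → K),
          Sat O ψ v) ∨
        (f ψ.code ≠ 0 ∧ ∀ (K : Type) [CommRing K], Pairing p K → ∀ (O : Set K) (v : ℕ → K),
          ¬ Sat O ψ v))) ∧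
    -- in particular, the common theory of any nonempty class of such rings is not elementary
    (∀ (C : (K : Type) → [CommRing K] → Prop), (∀ (K : Type) [CommRing K], C K → Pairing p K) →
      (∃ (K : Type) (_ : CommRing K), C K) → ∀ (O : (K : Type) → [CommRing K] → Set K)
      (c : Nat.Partrec.Code), (Decides c fun ψ => ∀ (K : Type) [CommRing K], C K →
        ∀ v : ℕ → K, Sat (O K) ψ v) → NotElementary c) ∧
    -- the rings include `F_p((t))`, `F_p[[t]]` and all imperfect fields of characteristic `p`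
    Pairing p (LaurentSeries (ZMod p)) ∧ Pairing p (PowerSeries (ZMod p)) ∧
    ∀ (K : Type) [Field K] [CharP K p], (∃ t : K, ∀ u : K, u ^ p ≠ t) → Pairing p K := by
  refine ⟨⟨?_, ?_⟩, ?_, fun K _ O v => sat_JF O p v, ?_, ?_, pairing_ls p, pairing_ps p,
    fun K _ _ h => pairing_of_field p K h⟩
  · intro f hf B
    obtain ⟨ψ, h1, h2, h3, h4⟩ := insep p f hf B
    refine ⟨ψ, ⟨h1, h2⟩, h3, fun h => ?_⟩
    rcases h4 with ⟨h5, h6⟩ | ⟨h5, h6⟩
    · exact h.2 (fun v => h6 _ (pairing_ls p) _ v) h5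
    · exact h6 _ (pairing_ls p) _ _ (h.1 h5 fun _ => 0)
  · intro c hc
    exact not_elementary_one p _ (pairing_ls p) _ c hc
  · intro f hf B
    obtain ⟨ψ, h1, h2, h3, h4, h5⟩ := insep_lin p f hf B
    have h0 : (0 : LaurentSeries (ZMod p)) ≠ 1 := zero_ne_one
    have hJ : ∀ v : ℕ → LaurentSeries (ZMod p), v 3 = HahnSeries.single 1 1 →
        Inj2 (JJ p (v 3)) := fun v hv => by
      rw [hv]
      exact inj_ls p
    obtain ⟨v0, hv0⟩ : ∃ v : ℕ → LaurentSeries (ZMod p), v 3 = HahnSeries.single 1 1 :=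
      ⟨fun _ => HahnSeries.single 1 1, rfl⟩
    refine ⟨ψ, h1, h2, h3, h4, fun h => ?_⟩
    rcases h5 with ⟨h6, h7⟩ | ⟨h6, h7⟩
    · exact h.2 (fun v hv => h7 _ h0 (ValRing p) v (hJ v hv)) h6
    · exact h7 _ h0 (ValRing p) v0 (hJ v0 hv0) (h.1 h6 v0 hv0)
  · intro f hf B
    obtain ⟨ψ, h1, h2, h3, h4⟩ := insep p f hf B
    exact ⟨ψ, ⟨h1, h2⟩, h3, h4⟩
  · intro C hC hne O c hc
    exact not_elementary p C hC hne O c hc

end Pool.Agent.Results.MP_db9079_lc.NonElementary
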