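import Pool.Agent.R621.FV.Pr
import Pool.Agent.R621.FV.Bound

/-!
# Three variables suffice for the theory of F_p((t))

In a field `K` of characteristic `p` in which `t` is not a `p`-th power the values of finitely many
variables can be coded in one element by iteration of the injective map `x ^ p + t y ^ p`. The
formulas which say that `x_1` is the `i`-th component of `x_0`, or that `x_0` and `x_1` have the same
components with the possible exception of the `i`-th one, can be written with three variables, which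
are used again and again. So every sentence about the valued field `K` is equivalent to a sentence
with three variables, in the language with a constant for `t`, and the translation is primitive
recursive and does not depend on `K`.

The sentences behind the lower bound `NonElementary` can therefore be written with three variables
and the constant `t`, and with four variables in the pure language of rings.
-/

set_option autoImplicit false

namespace Pool.Agent.Results.MP_db9079_lc.ThreeVariables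

open Pool.Agent.Y924.EL (Fm Sat E3)
open Pool.Agent.R621.FV

/-- the valuation ring `F_p[[t]]` in `F_p((t))` -/
def ValRing (p : ℕ) : Set (LaurentSeries (ZMod p)) :=
  Set.range (algebraMap (PowerSeries (ZMod p)) (LaurentSeries (ZMod p)))

/-- the uniformizer of `F_p((t))` -/
noncomputable def tee (p : ℕ) [Fact p.Prime] : LaurentSeries (ZMod p) := HahnSeries.single (1 : ℤ) (1 : ZMod p)

/-- some algorithm decides the truth of all sentences with the three variables `x_0, x_1, x_2` in
the structure `(K, O, t)` -/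
def ThreeDecidable {K : Type} [CommRing K] (O : Set K) (t : K) : Prop :=
  ∃ f : ℕ → Bool, Computable f ∧ ∀ χ : Fo, χ.Below 3 → χ.fv = ∅ →
    (f χ.code = true ↔ ∀ w : ℕ → K, χ.Tr O t w)

/-- some algorithm decides the truth of all sentences in the structure `(K, O, t)`, given as
formulas of `Fm` with at most the free variable `x_0`, which stands for `t` -/
def FullDecidable {K : Type} [CommRing K] (O : Set K) (t : K) : Prop :=
  ∃ f : ℕ → Bool, Computable f ∧ ∀ φ : Fm, φ.fv ⊆ {0} →
    (f φ.code = true ↔ ∀ v : ℕ → K, v 0 = t → Sat O φ v)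

/-- every elementary function takes the value `0` at a sentence of the class `S` which is true in
all structures `(K, O, t)` of the class `C`, or another value at one which is false in all of
them -/
def Inseparable (S : Fo → Prop) (C : (K : Type) → [Field K] → Set K → K → Prop) : Prop :=
  ∀ f : ℕ → ℕ, E3 f → ∀ B : ℕ, ∃ χ : Fo, S χ ∧ B ≤ χ.code ∧
    ((f χ.code = 0 ∧ ∀ (K : Type) [Field K] (O : Set K) (t : K), C K O t →
        ∀ w : ℕ → K, χ.Tr O t w) ∨
      (f χ.code ≠ 0 ∧ ∀ (K : Type) [Field K] (O : Set K) (t : K), C K O t →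
        ∀ w : ℕ → K, ¬ χ.Tr O t w))

theorem insep_three (p : ℕ) [Fact p.Prime] :
    Inseparable (fun χ => χ.Below 3 ∧ χ.fv = ∅ ∧ χ.NoVal)
      (fun K _ _ t => CharP K p ∧ ∀ u : K, u ^ p ≠ t) := by
  have hp : p ≠ 0 := (Fact.out : p.Prime).ne_zero
  intro f hf B
  obtain ⟨m, hB, hm⟩ := errs_seq (fun m => (chi3 p m).code) (e3_chi0 p .tt) f hf B
  refine ⟨chi3 p m, ⟨below_sb (k := 3) (c := .tt) trivial (chi0_below p m), ?_,
    noVal_sb (chi0_noVal p m)⟩, hB.trans (grow_chi0 p m .tt), ?_⟩
  · rw [← Finset.subset_empty]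
    refine (fv_sb (c := .tt) (chi0 p m)).trans (Finset.union_subset (chi0_fv p m) ?_)
    exact Finset.empty_subset _
  · have key : ∀ (K : Type) [Field K] (O : Set K) (t : K), (CharP K p ∧ ∀ u : K, u ^ p ≠ t) →
        ∀ w : ℕ → K, ((chi3 p m).Tr O t w ↔ Pool.Agent.R621.EL.Acc m) := by
      rintro K _ O t ⟨_, ht⟩ w
      exact tr_chi3 O p t hp (Pool.Agent.R621.EL.t_INJ K p t ht) m w
    by_cases h0 : f (chi3 p m).code = 0
    · exact Or.inl ⟨h0, fun K _ O t hK w => (key K O t hK w).2 (hm.1 h0)⟩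
    · exact Or.inr ⟨h0, fun K _ O t hK w h => h0 (hm.2 ((key K O t hK w).1 h))⟩

theorem insep_four (p : ℕ) [Fact p.Prime] :
    Inseparable (fun χ => χ.Below 4 ∧ χ.fv = ∅ ∧ χ.NoVal ∧ χ.NoT)
      (fun K _ _ _ => CharP K p ∧ ∃ s : K, ∀ u : K, u ^ p ≠ s) := by
  have hp : p ≠ 0 := (Fact.out : p.Prime).ne_zero
  intro f hf B
  obtain ⟨m, hB, hm⟩ := errs_seq (fun m => (chi4 p m).code) (e3_chi4 p) f hf B
  have hb : ((chi0 p m).sb (.var 3)).Below 4 :=
    below_sb (k := 4) (c := .var 3) (by decide : 3 < 4)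
      (below_mono (by norm_num) (chi0_below p m))
  have h33 : (Tm.var 3).Below 4 := (by decide : 3 < 4)
  have hnt : (Tm.var 3).NoT := trivial
  refine ⟨chi4 p m, ⟨⟨by norm_num, ⟨by norm_num, ?_, h33⟩, hb⟩, ?_,
    ⟨trivial, noVal_sb (chi0_noVal p m)⟩, ⟨?_, noT_sb hnt _⟩⟩,
    hB.trans (grow_chi4 p m), ?_⟩
  · exact below_mono_tm (by norm_num) (Syn.pw_below (a := .var 0) (by decide : 0 < 3) p)
  · rw [← Finset.subset_empty]
    simp only [chi4, Syn.fex, Syn.fand, Syn.fneg, Syn.feq]
    refine ⟨⟨(Syn.pw_fv _ _).trans (by decide), by decide⟩, ?_⟩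
    refine (fv_sb (c := .var 3) (chi0 p m)).trans (Finset.union_subset ?_ (by decide))
    exact (chi0_fv p m).trans (Finset.empty_subset _)
  · exact ⟨noT_pw p, trivial⟩
  · have key : ∀ (K : Type) [Field K] (O : Set K) (t : K),
        (CharP K p ∧ ∃ s : K, ∀ u : K, u ^ p ≠ s) →
        ∀ w : ℕ → K, ((chi4 p m).Tr O t w ↔ Pool.Agent.R621.EL.Acc m) := by
      rintro K _ O t ⟨_, ht⟩ w
      exact tr_chi4 O p t hp (fun s hs => Pool.Agent.R621.EL.t_INJ K p s hs) ht m w
    by_cases h0 : f (chi4 p m).code = 0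
    · exact Or.inl ⟨h0, fun K _ O t hK w => (key K O t hK w).2 (hm.1 h0)⟩
    · exact Or.inr ⟨h0, fun K _ O t hK w h => h0 (hm.2 ((key K O t hK w).1 h))⟩

theorem result (p : ℕ) [Fact p.Prime] :
    -- the translation
    (∃ F : ℕ → ℕ, Primrec F ∧ ∀ φ : Fm, φ.fv ⊆ {0} →
      ∃ χ : Fo, χ.Below 3 ∧ χ.fv = ∅ ∧ F φ.code = χ.code ∧
        ∀ (K : Type) [Field K] [CharP K p] (O : Set K) (t : K), (∀ u : K, u ^ p ≠ t) →
          ∀ v w : ℕ → K, v 0 = t → (χ.Tr O t w ↔ Sat O φ v)) ∧
    -- decidability for all imperfect fields of characteristic `p`, with any predicate `O`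
    (∀ (K : Type) [Field K] [CharP K p] (O : Set K) (t : K), (∀ u : K, u ^ p ≠ t) →
      ThreeDecidable O t → FullDecidable O t) ∧
    -- the theory of the valued field `F_p((t))`
    (ThreeDecidable (ValRing p) (tee p) → FullDecidable (ValRing p) (tee p)) ∧
    (ThreeDecidable (ValRing p) (tee p) → ∃ f : ℕ → Bool, Computable f ∧ ∀ φ : Fm, φ.fv = ∅ →
      (f φ.code = true ↔ ∀ v : ℕ → LaurentSeries (ZMod p), Sat (ValRing p) φ v)) ∧
    -- the fragment is not elementary: three variables and the constant `t`, without the valuation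
    Inseparable (fun χ => χ.Below 3 ∧ χ.fv = ∅ ∧ χ.NoVal)
      (fun K _ _ t => CharP K p ∧ ∀ u : K, u ^ p ≠ t) ∧
    -- four variables, without constant
    Inseparable (fun χ => χ.Below 4 ∧ χ.fv = ∅ ∧ χ.NoVal ∧ χ.NoT)
      (fun K _ _ _ => CharP K p ∧ ∃ s : K, ∀ u : K, u ^ p ≠ s) ∧
    -- these classes contain `F_p((t))`
    CharP (LaurentSeries (ZMod p)) p ∧ ∀ u : LaurentSeries (ZMod p), u ^ p ≠ tee p := by
  have hp : p ≠ 0 := (Fact.out : p.Prime).ne_zero
  have hinj : ∀ (K : Type) [Field K] [CharP K p] (t : K), (∀ u : K, u ^ p ≠ t) → Inj (JK p t) :=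
    fun K _ _ t ht => Pool.Agent.R621.EL.t_INJ K p t ht
  obtain ⟨F, hF, hF2⟩ := t_PR p
  have hmain := t_MAIN t_ABS t_SEM
  have hgen : ∀ (K : Type) [Field K] [CharP K p] (O : Set K) (t : K), (∀ u : K, u ^ p ≠ t) →
      ThreeDecidable O t → FullDecidable O t := by
    rintro K _ _ O t ht ⟨f, hf, hf2⟩
    refine ⟨fun m => f (F m), hf.comp hF.to_comp, fun φ hφ => ?_⟩
    show f (F φ.code) = true ↔ _
    rw [hF2 φ, hf2 _ (t_SYN p φ).1 (t_SYN p φ).2]
    constructor
    · intro h v hv
      exact (hmain K O p t hp (hinj K t ht) φ hφ v v hv).1 (h v)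
    · intro h w
      exact (hmain K O p t hp (hinj K t ht) φ hφ (fun _ => t) w rfl).2 (h _ rfl)
  refine ⟨⟨F, hF, fun φ hφ => ⟨FinF p φ, (t_SYN p φ).1, (t_SYN p φ).2, hF2 φ, ?_⟩⟩, hgen,
    ?_, ?_, insep_three p, insep_four p, inferInstance, Pool.Agent.R621.EL.t_not_pow p⟩
  · intro K _ _ O t ht v w hv
    exact hmain K O p t hp (hinj K t ht) φ hφ v w hv
  · exact hgen _ (ValRing p) (tee p) (Pool.Agent.R621.EL.t_not_pow p)
  · intro h
    obtain ⟨f, hf, hf2⟩ := hgen _ (ValRing p) (tee p) (Pool.Agent.R621.EL.t_not_pow p) h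
    refine ⟨f, hf, fun φ hφ => ?_⟩
    have hφ0 : φ.fv ⊆ {0} := by rw [hφ]; exact Finset.empty_subset _
    rw [hf2 φ hφ0]
    constructor
    · intro h1 v
      refine (sat_congr (ValRing p) φ (fun _ => tee p) v fun i hi => ?_).1 (h1 _ rfl)
      rw [hφ] at hi
      exact absurd hi (Finset.notMem_empty i)
    · intro h1 v _
      exact h1 v

end Pool.Agent.Results.MP_db9079_lc.ThreeVariables
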